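import Pool.Agent.MP_e23604_nt.Un.NTp

set_option autoImplicit false

open Finset QuadraticAlgebra
open scoped Classical

namespace Pool.Agent.MP_e23604_nt.Un

open B R S W

theorem tp_shift {F : ℕ → Qb} {d : Qb} (hF : ∀ i, F (i + 3) = F i) (o : Ok (F 0) (F 1) (F 2) d)
    (k : ℕ) : Ok (F (0 + k)) (F (1 + k)) (F (2 + k)) d ∧
      tp (F (0 + k)) (F (1 + k)) (F (2 + k)) d = tp (F 0) (F 1) (F 2) d - k • T0 := by
  induction k with
  | zero => simpa using o
  | succ k ih =>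
    rw [show 2 + (k + 1) = 0 + k + 3 by omega, hF, show 1 + (k + 1) = 2 + k by omega,
      show 0 + (k + 1) = 1 + k by omega, succ_nsmul, ← sub_sub, ← ih.2, eq_sub_iff_add_eq]
    exact ⟨ih.1.rot.rot, ih.1.rot.rot.add⟩

theorem NPI_of (h : NON_st) : NPI_st := fun k C hC => by
  obtain ⟨h1, h2, h3⟩ := pw_nd_T hC
  refine ⟨h1, h2, ?_⟩
  have e : ∀ i, nE k (mC pw C) i =
      w3 ^ (2 * nj k * cd C * k) * nE (2 * k) C (i + k) := fun i => by
    rw [nE, nE, h2, h3, nj_two, w3_mod_T (i := i + k + 2 * k) (j := i) (by omega),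
      w3_mod_T (i := nj k * cd C * i) (j := 2 * nj k * cd C * k + nj k * cd C * (i + k)) (by
        rw [mul_add, mul_assoc 2, mul_assoc 2]
        omega)]
    ring
  obtain ⟨o, e1⟩ := tp_shift (nE_add (2 * k) C) (ok_of h (2 * k) hC) k
  rw [ny_eq, ny_eq, e, e, e, o.scale (i := 2 * nj k * cd C * k) (pow_ne_zero _ w3_ne_zero), e1,
    smul_sub, smul_comm _ k, w_pow_T0]
  rw [nB, nB, h2, h3]
  ring

end Pool.Agent.MP_e23604_nt.Un
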